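import Pool.Agent.H449Z.Hodge.Tate

/-!
# Tate characters of the Jacobians of the curves `y ^ (ℓ ^ μ) = x ^ N - 1`

Let `ℓ` be an odd prime, `m` a degree prime to the prime `p` such that `p` has odd order modulo `m`.
Every Tate character `s` of degree `m` in characteristic `p` whose part prime to `ℓ` is symmetric
becomes, after raising the degree to a multiple prime to `p`, a member of the closure of the
characters of Fermat surfaces and of the standard characters of Aoki. The hypothesis holds for the
unions of triples `{a, b, -a - b}` with `ℓ ^ k * a = 0`, which are the characters of the products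
of the curves `y ^ (ℓ ^ k) = x ^ N - 1`.
-/

set_option autoImplicit false

namespace Pool.Agent.Results.MP_ee618e_ag.CatalanJacobians

open Pool.Agent.H916T

theorem result (p ℓ m k : ℕ) (hp : p.Prime) (hℓ : ℓ.Prime) (h2 : ℓ ≠ 2) (hm : 0 < m)
    (hpm : p.Coprime m) (hf : Odd (orderOf (p : ZMod m))) (s : Multiset (ZMod m))
    (hs : IsTate p m s) (hne : s ≠ 0)
    (hsym : (s.map fun a => - ((ℓ : ZMod m) ^ k * a)) = s.map fun a => (ℓ : ZMod m) ^ k * a) :
    ∃ N : ℕ, 0 < N ∧ p.Coprime N ∧
      Generated (N * m)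
        (fun t => SurfaceTate p (N * m) t ∨ ∃ q : ℕ, q.Prime ∧ q ∣ N * m ∧ Standard q (N * m) t)
        (s.map fun a => ((N * a.val : ℕ) : ZMod (N * m))) := by
  have hsm : ∀ a : ZMod m, ℓ ^ k • a = (ℓ : ZMod m) ^ k * a := by
    intro a
    rw [nsmul_eq_mul, Nat.cast_pow]
  obtain ⟨N, hN, hpN, H⟩ := Pool.Agent.H449Z.Hodge.tate_main (k := k) hp hℓ h2 hm hpm hf hs hne (by
    rw [Multiset.map_map]
    simp only [Function.comp_def, hsm]
    exact hsym)
  exact ⟨N, hN, hpN, H (N * m) rfl⟩

end Pool.Agent.Results.MP_ee618e_ag.CatalanJacobians
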